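import Pool.Agent.Q161.ESV.Stm3

/-!
# ESV-LAT (helper150 for helper161): lattices in `ℚ_2^m`
-/

set_option autoImplicit false

namespace Pool.Agent.Q150.ESV

open Pool.Agent.Q161.ESV Topology Filter

namespace LAT

/-- the lattice `c ℤ_2^m` -/
def Lat (m : ℕ) (c : ℚ_[2]) : AddSubgroup (Fin m → ℚ_[2]) where
  carrier := {a | ∀ i, ‖a i‖ ≤ ‖c‖}
  zero_mem' := fun i => by simp
  add_mem' := fun {a b} ha hb i =>
    (IsUltrametricDist.norm_add_le_max (a i) (b i)).trans (max_le (ha i) (hb i))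
  neg_mem' := fun {a} ha i => by
    change ‖-(a i)‖ ≤ ‖c‖
    rw [norm_neg]
    exact ha i

theorem mem_Lat {m : ℕ} {c : ℚ_[2]} {a : Fin m → ℚ_[2]} : a ∈ Lat m c ↔ ∀ i, ‖a i‖ ≤ ‖c‖ :=
  Iff.rfl

/-- reduction modulo `2 ^ k` of `a / c` -/
noncomputable def red (m : ℕ) (c : ℚ_[2]) (hc : c ≠ 0) (k : ℕ) :
    Lat m c →+ (Fin m → ZMod (2 ^ k)) where
  toFun a i := PadicInt.toZModPow k ⟨(a.1 i) / c, by
    rw [norm_div, div_le_one (norm_pos_iff.2 hc)]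
    exact a.2 i⟩
  map_zero' := by
    funext i
    refine Eq.trans (congrArg (PadicInt.toZModPow k) (Subtype.ext ?_)) (map_zero (PadicInt.toZModPow k))
    change (0 : ℚ_[2]) / c = 0
    rw [zero_div]
  map_add' a b := by
    funext i
    rw [Pi.add_apply, ← map_add]
    congr 1
    refine Subtype.ext ?_
    change (a.1 i + b.1 i) / c = a.1 i / c + b.1 i / c
    rw [add_div]

theorem red_surj (m : ℕ) (c : ℚ_[2]) (hc : c ≠ 0) (k : ℕ) : Function.Surjective (red m c hc k) := by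
  intro b
  have h : ∀ i, ∃ x : ℤ_[2], PadicInt.toZModPow k x = b i := by
    intro i
    refine ⟨((b i).val : ℤ_[2]), ?_⟩
    rw [map_natCast, ZMod.natCast_val, ZMod.cast_id]
  choose x hx using h
  refine ⟨⟨fun i => c * (x i : ℚ_[2]), fun i => ?_⟩, ?_⟩
  · rw [norm_mul]
    exact mul_le_of_le_one_right (norm_nonneg _) (x i).2
  · funext i
    rw [← hx i]
    change PadicInt.toZModPow k ⟨(c * (x i : ℚ_[2])) / c, _⟩ = _
    congr 1
    refine Subtype.ext ?_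
    change (c * (x i : ℚ_[2])) / c = (x i : ℚ_[2])
    rw [mul_div_cancel_left₀ _ hc]

theorem red_ker (m : ℕ) (c : ℚ_[2]) (hc : c ≠ 0) (k : ℕ) :
    (red m c hc k).ker = (Lat m (c * 2 ^ k)).addSubgroupOf (Lat m c) := by
  ext a
  rw [AddMonoidHom.mem_ker, AddSubgroup.mem_addSubgroupOf, mem_Lat, funext_iff]
  refine forall_congr' fun i => ?_
  change PadicInt.toZModPow k ⟨(a.1 i) / c, _⟩ = 0 ↔ _
  rw [← RingHom.mem_ker, PadicInt.ker_toZModPow, ← PadicInt.norm_le_pow_iff_mem_span_pow]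
  change ‖(a.1 i) / c‖ ≤ _ ↔ _
  rw [norm_div, norm_mul, norm_pow, div_le_iff₀ (norm_pos_iff.2 hc)]
  have h2 : ‖(2 : ℚ_[2])‖ = ((2 : ℕ) : ℝ)⁻¹ := by
    have := Padic.norm_p (p := 2)
    exact_mod_cast this
  rw [h2, mul_comm, inv_pow, zpow_neg, zpow_natCast]

theorem relIndex_Lat (m : ℕ) (c : ℚ_[2]) (hc : c ≠ 0) (k : ℕ) :
    (Lat m (c * 2 ^ k)).relIndex (Lat m c) = (2 ^ k) ^ m := by
  rw [AddSubgroup.relIndex, ← red_ker m c hc k, AddSubgroup.index_ker,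
    AddMonoidHom.range_eq_top.2 (red_surj m c hc k)]
  rw [Nat.card_congr (AddSubgroup.topEquiv (G := Fin m → ZMod (2 ^ k))).toEquiv]
  simp

theorem norm_two : ‖(2 : ℚ_[2])‖ = (2 : ℝ)⁻¹ := by
  have := Padic.norm_p (p := 2)
  exact_mod_cast this

/-- `c ℤ_2^m` with `c` a power of two in `Λ` -/
theorem Lat_le {m : ℕ} {Λ : AddSubgroup (Fin m → ℚ_[2])} {N : ℕ}
    (h : ∀ a : Fin m → ℚ_[2], (∀ i, ‖a i‖ ≤ 1) → (2 : ℚ_[2]) ^ N • a ∈ Λ) :
    Lat m (2 ^ N) ≤ Λ := by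
  intro a ha
  have h2 : (2 : ℚ_[2]) ^ N ≠ 0 := pow_ne_zero _ two_ne_zero
  have h1 := h (((2 : ℚ_[2]) ^ N)⁻¹ • a) (fun i => by
    rw [Pi.smul_apply, smul_eq_mul, norm_mul, norm_inv, inv_mul_le_iff₀ (norm_pos_iff.2 h2), mul_one]
    exact ha i)
  rwa [smul_smul, mul_inv_cancel₀ h2, one_smul] at h1

/-- the lattice is bounded -/
theorem bounded {m : ℕ} {Λ : AddSubgroup (Fin m → ℚ_[2])} {N : ℕ}
    (h : Lat m (2 ^ N) ≤ Λ)
    (h' : ∀ a : Fin m → ℚ_[2], (∀ j : ℕ, ((2 : ℚ_[2]) ^ j)⁻¹ • a ∈ Λ) → a = 0) :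
    ∃ j : ℕ, ∀ a ∈ Λ, ∀ i, ‖a i‖ ≤ 2 ^ j := by
  by_contra hcon
  push Not at hcon
  choose a ha i hi using hcon
  have h2 : (2 : ℚ_[2]) ≠ 0 := two_ne_zero
  -- the exponents
  have hex : ∀ j, ∃ e : ℕ, j < e ∧ ‖a j‖ = 2 ^ e := by
    intro j
    have hne : (Finset.univ : Finset (Fin m)).Nonempty := ⟨i j, Finset.mem_univ _⟩
    obtain ⟨i', -, hi'⟩ := Finset.exists_max_image Finset.univ (fun k => ‖a j k‖) hne
    have h3 : ‖a j‖ = ‖a j i'‖ := by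
      refine le_antisymm ?_ (norm_le_pi_norm _ _)
      rw [pi_norm_le_iff_of_nonneg (norm_nonneg _)]
      exact fun k => hi' k (Finset.mem_univ _)
    have h4 : (2 : ℝ) ^ j < ‖a j i'‖ := (hi j).trans_le (hi' (i j) (Finset.mem_univ _))
    have h5 : a j i' ≠ 0 := by
      intro h0
      rw [h0, norm_zero] at h4
      exact absurd h4 (not_lt.2 (by positivity))
    have h6 := Padic.norm_eq_zpow_neg_valuation h5
    rw [Nat.cast_ofNat] at h6
    rw [h6, ← zpow_natCast, zpow_lt_zpow_iff_right₀ (by norm_num)] at h4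
    obtain ⟨e, he⟩ := Int.eq_ofNat_of_zero_le (show 0 ≤ -(a j i').valuation by omega)
    refine ⟨e, by omega, ?_⟩
    rw [h3, h6, he]
    simp
  choose e he1 he2 using hex
  -- the normalised vectors
  obtain ⟨b, hb⟩ : ∃ b : ℕ → Fin m → ℚ_[2], b = fun j => (2 : ℚ_[2]) ^ e j • a j := ⟨_, rfl⟩
  have hbn : ∀ j, b j ∈ Metric.sphere (0 : Fin m → ℚ_[2]) 1 := by
    intro j
    rw [mem_sphere_zero_iff_norm, hb]
    change ‖(2 : ℚ_[2]) ^ e j • a j‖ = 1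
    rw [norm_smul, norm_pow, norm_two, he2, inv_pow, inv_mul_cancel₀ (by positivity)]
  obtain ⟨c, hc, φ, hφ, hlim⟩ := (isCompact_sphere (0 : Fin m → ℚ_[2]) 1).tendsto_subseq hbn
  have hc0 : c ≠ 0 := by
    rintro rfl
    rw [mem_sphere_zero_iff_norm, norm_zero] at hc
    exact zero_ne_one hc
  apply hc0
  apply h'
  intro k
  have hev : ∀ᶠ j in atTop, ‖b (φ j) - c‖ < (2 : ℝ)⁻¹ ^ (N + k) := by
    have h3 := (tendsto_iff_norm_sub_tendsto_zero.1 hlim).eventually_lt_const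
      (show (0 : ℝ) < (2 : ℝ)⁻¹ ^ (N + k) by positivity)
    exact h3
  obtain ⟨j, hj1, hj2⟩ := (hev.and (eventually_ge_atTop k)).exists
  have hke : k ≤ e (φ j) := (hj2.trans (hφ.id_le j)).trans (he1 _).le
  have e1 : ((2 : ℚ_[2]) ^ k)⁻¹ • b (φ j) ∈ Λ := by
    have : ((2 : ℚ_[2]) ^ k)⁻¹ • b (φ j) = (2 ^ (e (φ j) - k) : ℕ) • a (φ j) := by
      rw [hb]
      change ((2 : ℚ_[2]) ^ k)⁻¹ • (2 : ℚ_[2]) ^ e (φ j) • a (φ j) = _
      rw [smul_smul, ← Nat.cast_smul_eq_nsmul ℚ_[2]]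
      congr 1
      rw [Nat.cast_pow, Nat.cast_ofNat, inv_mul_eq_iff_eq_mul₀ (pow_ne_zero _ h2), ← pow_add,
        Nat.add_sub_cancel' hke]
    rw [this]
    exact Λ.nsmul_mem (ha _) _
  have e2 : ((2 : ℚ_[2]) ^ k)⁻¹ • (b (φ j) - c) ∈ Λ := by
    apply h
    intro i
    rw [Pi.smul_apply, smul_eq_mul, norm_mul, norm_inv, norm_pow, norm_pow, norm_two,
      inv_mul_le_iff₀ (by positivity)]
    refine ((norm_le_pi_norm _ i).trans hj1.le).trans ?_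
    rw [pow_add, mul_comm]
  have e3 : ((2 : ℚ_[2]) ^ k)⁻¹ • c = ((2 : ℚ_[2]) ^ k)⁻¹ • b (φ j) -
      ((2 : ℚ_[2]) ^ k)⁻¹ • (b (φ j) - c) := by
    rw [smul_sub]
    abel
  rw [e3]
  exact Λ.sub_mem e1 e2

end LAT

open LAT

theorem lat_ : S_LAT := by
  intro m Λ ⟨N, hN⟩ hd
  have h2 : (2 : ℚ_[2]) ≠ 0 := two_ne_zero
  have hB := Lat_le hN
  obtain ⟨j, hj⟩ := bounded hB hd
  -- `Λ ≤ A`
  have hA : Λ ≤ Lat m ((2 : ℚ_[2]) ^ j)⁻¹ := by
    intro a ha i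
    rw [norm_inv, norm_pow, norm_two, inv_pow, inv_inv]
    exact hj a ha i
  -- finite index
  have hfin : (Lat m (2 ^ N)).relIndex Λ ≠ 0 := by
    intro h0
    have h1 := AddSubgroup.relIndex_mul_relIndex _ _ _ hB hA
    rw [h0, zero_mul] at h1
    have h3 := relIndex_Lat m ((2 : ℚ_[2]) ^ j)⁻¹ (inv_ne_zero (pow_ne_zero _ h2)) (j + N)
    have h4 : ((2 : ℚ_[2]) ^ j)⁻¹ * 2 ^ (j + N) = 2 ^ N := by
      rw [pow_add, ← mul_assoc, inv_mul_cancel₀ (pow_ne_zero _ h2), one_mul]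
    rw [h4, ← h1] at h3
    exact absurd h3.symm (by positivity)
  -- multiplication by two
  let d : (Fin m → ℚ_[2]) →+ (Fin m → ℚ_[2]) :=
    { toFun := fun x => x + x
      map_zero' := add_zero 0
      map_add' := fun x y => by abel }
  have hdapp : ∀ x, d x = x + x := fun x => rfl
  have hdsurj : Function.Surjective d := by
    intro x
    refine ⟨(2 : ℚ_[2])⁻¹ • x, ?_⟩
    rw [hdapp, ← two_smul ℚ_[2], smul_smul, mul_inv_cancel₀ h2, one_smul]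
  have hBB : (Lat m (2 ^ N)).comap d = Lat m (2 ^ N / 2) := by
    ext x
    rw [AddSubgroup.mem_comap, mem_Lat, mem_Lat]
    refine forall_congr' fun i => ?_
    have h3 : d x i = 2 * x i := by
      rw [hdapp, Pi.add_apply]
      ring
    rw [h3, norm_mul, norm_div, norm_two, le_div_iff₀ (by norm_num), mul_comm]
  obtain ⟨Λ', hΛ'⟩ : ∃ Λ' : AddSubgroup (Fin m → ℚ_[2]), Λ' = Λ.comap d := ⟨_, rfl⟩
  have hmap : Λ'.map d = Λ := by
    rw [hΛ']
    exact AddSubgroup.map_comap_eq_self_of_surjective hdsurj Λ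
  have hle1 : Λ ≤ Λ' := by
    intro x hx
    rw [hΛ', AddSubgroup.mem_comap, hdapp]
    exact Λ.add_mem hx hx
  have hle2 : Lat m (2 ^ N) ≤ Lat m (2 ^ N / 2) := by
    rw [← hBB]
    intro x hx
    rw [AddSubgroup.mem_comap, hdapp]
    exact (Lat m (2 ^ N)).add_mem hx hx
  have hle3 : Lat m (2 ^ N / 2) ≤ Λ' := by
    rw [← hBB, hΛ']
    exact AddSubgroup.comap_mono hB
  have k1 := AddSubgroup.relIndex_mul_relIndex _ _ _ hB hle1
  have k2 := AddSubgroup.relIndex_mul_relIndex _ _ _ hle2 hle3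
  have k3 : (Lat m (2 ^ N / 2)).relIndex Λ' = (Lat m (2 ^ N)).relIndex Λ := by
    rw [← hBB, AddSubgroup.relIndex_comap, hmap]
  have k4 : (Lat m (2 ^ N)).relIndex (Lat m (2 ^ N / 2)) = 2 ^ m := by
    have h5 := relIndex_Lat m (2 ^ N / 2) (div_ne_zero (pow_ne_zero _ h2) h2) 1
    rw [pow_one, pow_one, div_mul_cancel₀ _ h2] at h5
    exact h5
  rw [k3, k4, ← k1] at k2
  have k5 : Λ.relIndex Λ' = 2 ^ m := by
    have h6 : (Lat m (2 ^ N)).relIndex Λ * Λ.relIndex Λ' = (Lat m (2 ^ N)).relIndex Λ * 2 ^ m := by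
      rw [← k2, mul_comm]
    exact Nat.eq_of_mul_eq_mul_left (Nat.pos_of_ne_zero hfin) h6
  -- the elements killed by two
  let q : Λ' →+ (Fin m → ℚ_[2]) ⧸ Λ := (QuotientAddGroup.mk' Λ).comp Λ'.subtype
  have hker : q.ker = Λ.addSubgroupOf Λ' := by
    ext x
    rw [AddMonoidHom.mem_ker, AddSubgroup.mem_addSubgroupOf]
    exact QuotientAddGroup.eq_zero_iff x.1
  have hrange : ∀ y : (Fin m → ℚ_[2]) ⧸ Λ, y ∈ q.range ↔ y + y = 0 := by
    intro y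
    obtain ⟨x, rfl⟩ := QuotientAddGroup.mk_surjective y
    constructor
    · rintro ⟨x', hx'⟩
      have h7 : ((x'.1 : Fin m → ℚ_[2]) : (Fin m → ℚ_[2]) ⧸ Λ) = (x : (Fin m → ℚ_[2]) ⧸ Λ) := hx'
      rw [← h7, ← QuotientAddGroup.mk_add, QuotientAddGroup.eq_zero_iff]
      have h9 : ∀ z ∈ Λ', z + z ∈ Λ := by
        intro z hz
        rw [hΛ', AddSubgroup.mem_comap, hdapp] at hz
        exact hz
      exact h9 _ x'.2
    · intro h
      rw [← QuotientAddGroup.mk_add, QuotientAddGroup.eq_zero_iff] at h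
      refine ⟨⟨x, ?_⟩, rfl⟩
      rw [hΛ', AddSubgroup.mem_comap, hdapp]
      exact h
  have k6 : Nat.card q.range = 2 ^ m := by
    rw [← AddSubgroup.index_ker, hker]
    exact k5
  rw [← k6]
  refine Nat.card_congr (Equiv.subtypeEquivRight fun y => ?_)
  exact (hrange y).symm

end Pool.Agent.Q150.ESV
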